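import Pool.Agent.H85.BP.Defs

/-!
# BP C5F: facts about an induced C5

All five vertices are different (from the adjacencies).  `C5_pri`: let `H` be a module of `{a,b,c,d,e}` with at least 2 elements.  Closure: if `H` contains two adjacent vertices, say `a, b`: `c` is adjacent to `b` only, so `c ∈ H`; `e ∈ H`; then `d` (adjacent to `c`, not to `a`) `∈ H`.  If `H` contains two non-adjacent vertices `a, c`: `d` (adjacent to `c` only) `∈ H`, and `c, d` are adjacent.  So `H` is everything.  Use the symmetry `C5 G a b c d e → C5 G b c d e a` and reversal to reduce the 10 pairs (or: `Finset` of the five, 10 cases by hand; or transfer to `Fin 5` and `decide`).  `C5_nsplit`: `N` stable, the rest a clique: `N` has at most 2 elements and the rest at most 2.  `C5_card`.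
-/

set_option autoImplicit false

namespace Pool.Agent.H85.BP

open Finset

variable {V : Type*}

theorem C5_rot {G : SimpleGraph V} {a b c d e : V} (h : C5 G a b c d e) : C5 G b c d e a :=
  ⟨h.2.1, h.2.2.1, h.2.2.2.1, h.2.2.2.2.1, h.1, h.2.2.2.2.2.2.2.1, h.2.2.2.2.2.2.2.2.1,
    h.2.2.2.2.2.2.2.2.2, fun e => h.2.2.2.2.2.1 e.symm, fun e => h.2.2.2.2.2.2.1 e.symm⟩

theorem C5_ne {G : SimpleGraph V} {a b c d e : V} (h : C5 G a b c d e) : a ≠ c := by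
  rintro rfl; exact h.2.2.2.2.2.2.1 h.2.2.1

theorem IsMod_mem {G : SimpleGraph V} {S H : Finset V} (h : IsMod G S H) {c a b : V} (hc : c ∈ S)
    (ha : a ∈ H) (hb : b ∈ H) (hca : G.Adj c a) (hcb : ¬ G.Adj c b) : c ∈ H := by
  by_contra hcS
  rcases h.2 c hc hcS with h1 | h1
  · exact hcb (h1 b hb)
  · exact h1 a ha hca

private theorem all12 {G : SimpleGraph V} {a b c d e : V} (h : C5 G a b c d e)
    {H S : Finset V} (hS : IsMod G H S) (h3 : c ∈ H) (h4 : d ∈ H)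
    (h5 : e ∈ H) (m1 : a ∈ S) (m2 : b ∈ S) : c ∈ S ∧ d ∈ S ∧ e ∈ S := by
  obtain ⟨ab, bc, cd, de, ea, ac, ad, bd, be, ce⟩ := h
  have m3 : c ∈ S := IsMod_mem hS h3 m2 m1 bc.symm (fun e => ac e.symm)
  have m5 : e ∈ S := IsMod_mem hS h5 m1 m2 ea (fun e => be e.symm)
  have m4 : d ∈ S := IsMod_mem hS h4 m3 m1 cd.symm (fun e => ad e.symm)
  exact ⟨m3, m4, m5⟩

private theorem all13 {G : SimpleGraph V} {a b c d e : V} (h : C5 G a b c d e)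
    {H S : Finset V} (hS : IsMod G H S) (h2 : b ∈ H) (h4 : d ∈ H)
    (h5 : e ∈ H) (m1 : a ∈ S) (m3 : c ∈ S) : b ∈ S ∧ d ∈ S ∧ e ∈ S := by
  obtain ⟨ab, bc, cd, de, ea, ac, ad, bd, be, ce⟩ := h
  have m4 : d ∈ S := IsMod_mem hS h4 m3 m1 cd.symm (fun e => ad e.symm)
  have m5 : e ∈ S := IsMod_mem hS h5 m1 m3 ea (fun e => ce e.symm)
  have m2 : b ∈ S := IsMod_mem hS h2 m1 m4 ab.symm bd
  exact ⟨m2, m4, m5⟩

private theorem hall {G : SimpleGraph V} {a b c d e : V} (h : C5 G a b c d e)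
    {H S : Finset V} (hS : IsMod G H S) (g1 : a ∈ H) (g2 : b ∈ H) (g3 : c ∈ H) (g4 : d ∈ H)
    (g5 : e ∈ H) {p q : V} (hpq : p ≠ q) (hp : p ∈ S) (hq : q ∈ S)
    (hp' : p = a ∨ p = b ∨ p = c ∨ p = d ∨ p = e) (hq' : q = a ∨ q = b ∨ q = c ∨ q = d ∨ q = e) :
    a ∈ S ∧ b ∈ S ∧ c ∈ S ∧ d ∈ S ∧ e ∈ S := by
  have hr := C5_rot h
  have hrr := C5_rot hr
  have hrrr := C5_rot hrr
  have hrrrr := C5_rot hrrr
  have k12 : a ∈ S → b ∈ S → a ∈ S ∧ b ∈ S ∧ c ∈ S ∧ d ∈ S ∧ e ∈ S := fun m1 m2 =>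
    have t := all12 h hS g3 g4 g5 m1 m2
    ⟨m1, m2, t.1, t.2.1, t.2.2⟩
  have k23 : b ∈ S → c ∈ S → a ∈ S ∧ b ∈ S ∧ c ∈ S ∧ d ∈ S ∧ e ∈ S := fun m1 m2 =>
    have t := all12 hr hS g4 g5 g1 m1 m2
    ⟨t.2.2, m1, m2, t.1, t.2.1⟩
  have k34 : c ∈ S → d ∈ S → a ∈ S ∧ b ∈ S ∧ c ∈ S ∧ d ∈ S ∧ e ∈ S := fun m1 m2 =>
    have t := all12 hrr hS g5 g1 g2 m1 m2
    ⟨t.2.1, t.2.2, m1, m2, t.1⟩
  have k45 : d ∈ S → e ∈ S → a ∈ S ∧ b ∈ S ∧ c ∈ S ∧ d ∈ S ∧ e ∈ S := fun m1 m2 =>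
    have t := all12 hrrr hS g1 g2 g3 m1 m2
    ⟨t.1, t.2.1, t.2.2, m1, m2⟩
  have k51 : e ∈ S → a ∈ S → a ∈ S ∧ b ∈ S ∧ c ∈ S ∧ d ∈ S ∧ e ∈ S := fun m1 m2 =>
    have t := all12 hrrrr hS g2 g3 g4 m1 m2
    ⟨m2, t.1, t.2.1, t.2.2, m1⟩
  have k13 : a ∈ S → c ∈ S → a ∈ S ∧ b ∈ S ∧ c ∈ S ∧ d ∈ S ∧ e ∈ S := fun m1 m2 =>
    have t := all13 h hS g2 g4 g5 m1 m2
    ⟨m1, t.1, m2, t.2.1, t.2.2⟩
  have k24 : b ∈ S → d ∈ S → a ∈ S ∧ b ∈ S ∧ c ∈ S ∧ d ∈ S ∧ e ∈ S := fun m1 m2 =>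
    have t := all13 hr hS g3 g5 g1 m1 m2
    ⟨t.2.2, m1, t.1, m2, t.2.1⟩
  have k35 : c ∈ S → e ∈ S → a ∈ S ∧ b ∈ S ∧ c ∈ S ∧ d ∈ S ∧ e ∈ S := fun m1 m2 =>
    have t := all13 hrr hS g4 g1 g2 m1 m2
    ⟨t.2.1, t.2.2, m1, t.1, m2⟩
  have k41 : d ∈ S → a ∈ S → a ∈ S ∧ b ∈ S ∧ c ∈ S ∧ d ∈ S ∧ e ∈ S := fun m1 m2 =>
    have t := all13 hrrr hS g5 g2 g3 m1 m2
    ⟨m2, t.2.1, t.2.2, m1, t.1⟩
  have k52 : e ∈ S → b ∈ S → a ∈ S ∧ b ∈ S ∧ c ∈ S ∧ d ∈ S ∧ e ∈ S := fun m1 m2 =>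
    have t := all13 hrrrr hS g1 g3 g4 m1 m2
    ⟨t.1, m2, t.2.1, t.2.2, m1⟩
  rcases hp' with e1 | e1 | e1 | e1 | e1 <;> rcases hq' with e2 | e2 | e2 | e2 | e2 <;>
    rw [e1] at hp <;> rw [e2] at hq <;> first
    | exact absurd (e1.trans e2.symm) hpq
    | exact k12 hp hq
    | exact k12 hq hp
    | exact k23 hp hq
    | exact k23 hq hp
    | exact k34 hp hq
    | exact k34 hq hp
    | exact k45 hp hq
    | exact k45 hq hp
    | exact k51 hp hq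
    | exact k51 hq hp
    | exact k13 hp hq
    | exact k13 hq hp
    | exact k24 hp hq
    | exact k24 hq hp
    | exact k35 hp hq
    | exact k35 hq hp
    | exact k41 hp hq
    | exact k41 hq hp
    | exact k52 hp hq
    | exact k52 hq hp

theorem C5_pri [DecidableEq V] {G : SimpleGraph V} {a b c d e : V} (h : C5 G a b c d e) : Pri G {a, b, c, d, e} := by
  intro S hS h2
  obtain ⟨p, hp, q, hq, hpq⟩ := Finset.one_lt_card.1 (show 1 < S.card by omega)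
  have hp' := hS.1 hp
  have hq' := hS.1 hq
  simp only [mem_insert, mem_singleton] at hp' hq'
  have hh := hall h hS (by simp) (by simp) (by simp) (by simp) (by simp) hpq hp hq hp' hq'
  apply Finset.Subset.antisymm hS.1
  intro x hx
  simp only [mem_insert, mem_singleton] at hx
  rcases hx with rfl | rfl | rfl | rfl | rfl
  · exact hh.1
  · exact hh.2.1
  · exact hh.2.2.1
  · exact hh.2.2.2.1
  · exact hh.2.2.2.2

theorem C5_nsplit [DecidableEq V] {G : SimpleGraph V} {a b c d e : V} (h : C5 G a b c d e) : ¬ Split G {a, b, c, d, e} := by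
  rintro ⟨N, hN, hst, hcl⟩
  have n13 := C5_ne h
  have n24 := C5_ne (C5_rot h)
  have n35 := C5_ne (C5_rot (C5_rot h))
  have n41 := C5_ne (C5_rot (C5_rot (C5_rot h)))
  have n52 := C5_ne (C5_rot (C5_rot (C5_rot (C5_rot h))))
  obtain ⟨ab, bc, cd, de, ea, ac, ad, bd, be, ce⟩ := h
  have k1 : ¬ (a ∈ N ∧ b ∈ N) := fun h => hst a h.1 b h.2 ab
  have k2 : ¬ (b ∈ N ∧ c ∈ N) := fun h => hst b h.1 c h.2 bc
  have k3 : ¬ (c ∈ N ∧ d ∈ N) := fun h => hst c h.1 d h.2 cd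
  have k4 : ¬ (d ∈ N ∧ e ∈ N) := fun h => hst d h.1 e h.2 de
  have k5 : ¬ (e ∈ N ∧ a ∈ N) := fun h => hst e h.1 a h.2 ea
  have l1 : ¬ (a ∉ N ∧ c ∉ N) := fun h => ac (hcl a (by simp) c (by simp) h.1 h.2 n13)
  have l2 : ¬ (b ∉ N ∧ d ∉ N) := fun h => bd (hcl b (by simp) d (by simp) h.1 h.2 n24)
  have l3 : ¬ (c ∉ N ∧ e ∉ N) := fun h => ce (hcl c (by simp) e (by simp) h.1 h.2 n35)
  have l4 : ¬ (a ∉ N ∧ d ∉ N) := fun h => ad (hcl a (by simp) d (by simp) h.1 h.2 n41.symm)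
  have l5 : ¬ (b ∉ N ∧ e ∉ N) := fun h => be (hcl b (by simp) e (by simp) h.1 h.2 n52.symm)
  clear hst hcl
  by_cases m1 : a ∈ N
  · have m2 : b ∉ N := fun h => k1 ⟨m1, h⟩
    have m4 : d ∈ N := by
      by_contra h; exact l2 ⟨m2, h⟩
    have m5 : e ∈ N := by
      by_contra h; exact l5 ⟨m2, h⟩
    exact k4 ⟨m4, m5⟩
  · have m3 : c ∈ N := by
      by_contra h; exact l1 ⟨m1, h⟩
    have m4 : d ∈ N := by
      by_contra h; exact l4 ⟨m1, h⟩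
    exact k3 ⟨m3, m4⟩

theorem C5_card [DecidableEq V] {G : SimpleGraph V} {a b c d e : V} (h : C5 G a b c d e) : ({a, b, c, d, e} : Finset V).card = 5 := by
  have n13 := C5_ne h
  have n24 := C5_ne (C5_rot h)
  have n35 := C5_ne (C5_rot (C5_rot h))
  have n41 := C5_ne (C5_rot (C5_rot (C5_rot h)))
  have n52 := C5_ne (C5_rot (C5_rot (C5_rot (C5_rot h))))
  have n12 := h.1.ne
  have n23 := h.2.1.ne
  have n34 := h.2.2.1.ne
  have n45 := h.2.2.2.1.ne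
  have n51 := h.2.2.2.2.1.ne
  rw [Finset.card_insert_of_notMem, Finset.card_insert_of_notMem, Finset.card_insert_of_notMem,
    Finset.card_insert_of_notMem, Finset.card_singleton]
  · simpa using n45
  · simp [n34, n35]
  · simp [n23, n24, n52.symm]
  · simp [n12, n13, n41.symm, n51.symm]

end Pool.Agent.H85.BP
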