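import Pool.Agent.H85.BP.CA
import Pool.Agent.H85.BP.C5F

/-!
# BP CDc: no induced C5 has a centre (core form, without minimally imperfect sets)
-/

set_option autoImplicit false

namespace Pool.Agent.H85.BP

open Finset

variable {V : Type*}

theorem cd_core [Fintype V] {G : SimpleGraph V} (hb : BF G) (hp : Pri G univ) {a b c d e z : V}
    (h : C5 G a b c d e) (za : G.Adj z a) (zb : G.Adj z b) (zc : G.Adj z c) (zd : G.Adj z d)
    (ze : G.Adj z e) {I : Finset V} (hI : Pri G I) (h3 : 3 ≤ I.card) (hIs : ¬ Split G I)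
    (hzI : Anti G z I) : False := by
  classical
  have hzD : Cmp G z {a, b, c, d, e} := by
    intro x hx
    simp only [mem_insert, mem_singleton] at hx
    rcases hx with rfl | rfl | rfl | rfl | rfl <;> assumption
  have hIne : I.Nonempty := Finset.card_pos.1 (by omega)
  obtain ⟨u, hu⟩ := hIne
  obtain ⟨u', hu', huu⟩ := conn_edge (pri_conn hI h3) (by omega) hu
  have key : ∀ c' ∈ I, ∀ x ∈ ({a, b, c, d, e} : Finset V), ∀ y ∈ ({a, b, c, d, e} : Finset V),
      x ≠ y → ¬ G.Adj x y → G.Adj c' x ∨ G.Adj c' y := by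
    intro c' hc x hx y hy hxy hnxy
    have hcz : ¬ G.Adj c' z := fun h => hzI.2 c' hc h.symm
    have hcD : c' ∉ ({a, b, c, d, e} : Finset V) := fun h => hcz (hzD c' h).symm
    rcases alpha_clq hb (C5_pri h) hzD hcz hcD with h1 | h1
    · exact (ca hb hp (C5_pri h) (by rw [C5_card h]; omega) (C5_nsplit h) hzD
        (⟨hcD, h1⟩ : Anti G c' _)).elim
    · by_contra hcon
      push Not at hcon
      exact hnxy (h1 x hx y hy hcon.1 hcon.2 hxy)
  have key2 : ∀ x ∈ ({a, b, c, d, e} : Finset V), ¬ (G.Adj u x ∧ G.Adj u' x) := by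
    rintro x hx ⟨h1, h2⟩
    have hxz : G.Adj x z := (hzD x hx).symm
    rcases beta_stab hb hI hzI hxz with h | h
    · exact ca hb hp hI h3 hIs h hzI
    · exact h u hu u' hu' h1.symm h2.symm huu
  have n13 := C5_ne h
  have n24 := C5_ne (C5_rot h)
  have n35 := C5_ne (C5_rot (C5_rot h))
  have n41 := C5_ne (C5_rot (C5_rot (C5_rot h)))
  have n52 := C5_ne (C5_rot (C5_rot (C5_rot (C5_rot h))))
  obtain ⟨ab, bc, cd, de, ea, ac, ad, bd, be, ce⟩ := h
  have a13 := key u hu a (by simp) c (by simp) n13 ac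
  have a24 := key u hu b (by simp) d (by simp) n24 bd
  have a35 := key u hu c (by simp) e (by simp) n35 ce
  have a14 := key u hu a (by simp) d (by simp) n41.symm ad
  have a25 := key u hu b (by simp) e (by simp) n52.symm be
  have b13 := key u' hu' a (by simp) c (by simp) n13 ac
  have b24 := key u' hu' b (by simp) d (by simp) n24 bd
  have b35 := key u' hu' c (by simp) e (by simp) n35 ce
  have b14 := key u' hu' a (by simp) d (by simp) n41.symm ad
  have b25 := key u' hu' b (by simp) e (by simp) n52.symm be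
  have c1 := key2 a (by simp)
  have c2 := key2 b (by simp)
  have c3 := key2 c (by simp)
  have c4 := key2 d (by simp)
  have c5 := key2 e (by simp)
  clear key key2
  by_cases q1 : G.Adj u a
  · have r1 : ¬ G.Adj u' a := fun h => c1 ⟨q1, h⟩
    have r3 : G.Adj u' c := b13.resolve_left r1
    have r4 : G.Adj u' d := b14.resolve_left r1
    have q3 : ¬ G.Adj u c := fun h => c3 ⟨h, r3⟩
    have q4 : ¬ G.Adj u d := fun h => c4 ⟨h, r4⟩
    have q5 : G.Adj u e := a35.resolve_left q3
    have q2 : G.Adj u b := a24.resolve_right q4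
    rcases b25 with h | h
    · exact c2 ⟨q2, h⟩
    · exact c5 ⟨q5, h⟩
  · have q3 : G.Adj u c := a13.resolve_left q1
    have q4 : G.Adj u d := a14.resolve_left q1
    have r3 : ¬ G.Adj u' c := fun h => c3 ⟨q3, h⟩
    have r4 : ¬ G.Adj u' d := fun h => c4 ⟨q4, h⟩
    have r5 : G.Adj u' e := b35.resolve_left r3
    have r2 : G.Adj u' b := b24.resolve_right r4
    rcases a25 with h | h
    · exact c2 ⟨h, r2⟩
    · exact c5 ⟨h, r5⟩

end Pool.Agent.H85.BP
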