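import Pool.Agent.H85.BP.Defs

/-!
# BP PrF: facts about an induced prism

The six vertices are different.  Prism: triangles `p q r`, `p' q' r'`, edges `p p'`, `q q'`, `r r'`.  `Prism_pri`: closure argument: a module `H` with two elements contains everything: pairs up to symmetry: `{p,q}` : `p'` (adjacent to `p` only) and `q'` are in `H`; `{p,p'}`: `q` (adjacent to `p` only), ...; `{p,q'}`: `q`? (adjacent to both), `r` (adjacent to `p`, not to `q'`) `∈ H`, then pair `{p,r}`.  Then everything follows quickly.  Use the symmetries of the prism (permute the three indices, exchange primed/unprimed), or transfer to `Fin 6` and `decide`.  `Prism_nsplit`: a stable set has at most 2 elements, `N = {p,q'}` (say) leaves `q, r, p', r'` with `q ≁ p'`; in general: the rest has at least 4 elements, but cliques have at most 3.  `Prism_card`.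
-/

set_option autoImplicit false

namespace Pool.Agent.H85.BP

open Finset

variable {V : Type*}

/-- permutation of the three indices -/
theorem Prism_rot {G : SimpleGraph V} {p q r p' q' r' : V} (h : Prism G p q r p' q' r') :
    Prism G q r p q' r' p' := by
  obtain ⟨pq, qr, pr, pq', qr', pr', pp, qq, rr, n1, n2, n3, n4, n5, n6⟩ := h
  exact ⟨qr, pr.symm, pq.symm, qr', pr'.symm, pq'.symm, qq, rr, pp, n4, n3, n6, n5, n1, n2⟩

theorem Prism_swap {G : SimpleGraph V} {p q r p' q' r' : V} (h : Prism G p q r p' q' r') :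
    Prism G q p r q' p' r' := by
  obtain ⟨pq, qr, pr, pq', qr', pr', pp, qq, rr, n1, n2, n3, n4, n5, n6⟩ := h
  exact ⟨pq.symm, pr, qr, pq'.symm, pr', qr', qq, pp, rr, n3, n4, n1, n2, n6, n5⟩

/-- exchange of the two triangles -/
theorem Prism_flip {G : SimpleGraph V} {p q r p' q' r' : V} (h : Prism G p q r p' q' r') :
    Prism G p' q' r' p q r := by
  obtain ⟨pq, qr, pr, pq', qr', pr', pp, qq, rr, n1, n2, n3, n4, n5, n6⟩ := h
  exact ⟨pq', qr', pr', pq, qr, pr, pp.symm, qq.symm, rr.symm, fun e => n3 e.symm,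
    fun e => n5 e.symm, fun e => n1 e.symm, fun e => n6 e.symm, fun e => n2 e.symm,
    fun e => n4 e.symm⟩

private theorem IsMod_mem' {G : SimpleGraph V} {S H : Finset V} (h : IsMod G S H) {c a b : V}
    (hc : c ∈ S) (ha : a ∈ H) (hb : b ∈ H) (hca : G.Adj c a) (hcb : ¬ G.Adj c b) : c ∈ H := by
  by_contra hcS
  rcases h.2 c hc hcS with h1 | h1
  · exact hcb (h1 b hb)
  · exact h1 a ha hca

private def AllIn (S : Finset V) (p q r p' q' r' : V) : Prop :=
  p ∈ S ∧ q ∈ S ∧ r ∈ S ∧ p' ∈ S ∧ q' ∈ S ∧ r' ∈ S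

private theorem kpq {G : SimpleGraph V} {p q r p' q' r' : V} (h : Prism G p q r p' q' r')
    {H S : Finset V} (hS : IsMod G H S) (hr : r ∈ H) (hp' : p' ∈ H) (hq' : q' ∈ H) (hr' : r' ∈ H)
    (m1 : p ∈ S) (m2 : q ∈ S) : AllIn S p q r p' q' r' := by
  obtain ⟨pq, qr, pr, pq', qr', pr', pp, qq, rr, n1, n2, n3, n4, n5, n6⟩ := h
  have a1 : p' ∈ S := IsMod_mem' hS hp' m1 m2 pp.symm (fun e => n3 e.symm)
  have a2 : q' ∈ S := IsMod_mem' hS hq' m2 m1 qq.symm (fun e => n1 e.symm)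
  have a3 : r ∈ S := IsMod_mem' hS hr m1 a1 pr.symm n5
  have a4 : r' ∈ S := IsMod_mem' hS hr' a1 m1 pr'.symm (fun e => n2 e.symm)
  exact ⟨m1, m2, a3, a1, a2, a4⟩

private theorem kpp {G : SimpleGraph V} {p q r p' q' r' : V} (h : Prism G p q r p' q' r')
    {H S : Finset V} (hS : IsMod G H S) (hq : q ∈ H) (hr : r ∈ H) (hp' : p' ∈ H) (hq' : q' ∈ H)
    (hr' : r' ∈ H) (m1 : p ∈ S) (m2 : p' ∈ S) : AllIn S p q r p' q' r' :=
  kpq h hS hr hp' hq' hr' m1
    (IsMod_mem' hS hq m1 m2 h.1.symm h.2.2.2.2.2.2.2.2.2.2.2.1)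

private theorem kpq' {G : SimpleGraph V} {p q r p' q' r' : V} (h : Prism G p q r p' q' r')
    {H S : Finset V} (hS : IsMod G H S) (hq : q ∈ H) (hr : r ∈ H) (hp' : p' ∈ H) (hq' : q' ∈ H)
    (hr' : r' ∈ H) (m1 : p ∈ S) (m2 : q' ∈ S) : AllIn S p q r p' q' r' := by
  -- r ~ p, r ≁ q'
  have a1 : r ∈ S := IsMod_mem' hS hr m1 m2 h.2.2.1.symm h.2.2.2.2.2.2.2.2.2.2.2.2.2.2
  have h' : Prism G p r q p' r' q' := by
    have := Prism_swap (Prism_rot (Prism_rot h))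
    exact this
  have := kpq h' hS hq hp' hr' hq' m1 a1
  obtain ⟨b1, b2, b3, b4, b5, b6⟩ := this
  exact ⟨b1, b3, b2, b4, b6, b5⟩

theorem Prism_pri [DecidableEq V] {G : SimpleGraph V} {p q r p' q' r' : V} (h : Prism G p q r p' q' r') :
    Pri G {p, q, r, p', q', r'} := by
  intro S hS h2
  obtain ⟨u, hu, v, hv, huv⟩ := Finset.one_lt_card.1 (show 1 < S.card by omega)
  have g1 : p ∈ ({p, q, r, p', q', r'} : Finset V) := by simp
  have g2 : q ∈ ({p, q, r, p', q', r'} : Finset V) := by simp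
  have g3 : r ∈ ({p, q, r, p', q', r'} : Finset V) := by simp
  have g4 : p' ∈ ({p, q, r, p', q', r'} : Finset V) := by simp
  have g5 : q' ∈ ({p, q, r, p', q', r'} : Finset V) := by simp
  have g6 : r' ∈ ({p, q, r, p', q', r'} : Finset V) := by simp
  have R1 := Prism_rot h
  have R2 := Prism_rot R1
  have F0 := Prism_flip h
  have F1 := Prism_rot F0
  have F2 := Prism_rot F1
  -- pairs of the first triangle
  have c12 : p ∈ S → q ∈ S → AllIn S p q r p' q' r' := fun m1 m2 => kpq h hS g3 g4 g5 g6 m1 m2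
  have c23 : q ∈ S → r ∈ S → AllIn S p q r p' q' r' := fun m1 m2 => by
    obtain ⟨b1, b2, b3, b4, b5, b6⟩ := kpq R1 hS g1 g5 g6 g4 m1 m2
    exact ⟨b3, b1, b2, b6, b4, b5⟩
  have c31 : r ∈ S → p ∈ S → AllIn S p q r p' q' r' := fun m1 m2 => by
    obtain ⟨b1, b2, b3, b4, b5, b6⟩ := kpq R2 hS g2 g6 g4 g5 m1 m2
    exact ⟨b2, b3, b1, b5, b6, b4⟩
  have c45 : p' ∈ S → q' ∈ S → AllIn S p q r p' q' r' := fun m1 m2 => by
    obtain ⟨b1, b2, b3, b4, b5, b6⟩ := kpq F0 hS g6 g1 g2 g3 m1 m2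
    exact ⟨b4, b5, b6, b1, b2, b3⟩
  have c56 : q' ∈ S → r' ∈ S → AllIn S p q r p' q' r' := fun m1 m2 => by
    obtain ⟨b1, b2, b3, b4, b5, b6⟩ := kpq F1 hS g4 g2 g3 g1 m1 m2
    exact ⟨b6, b4, b5, b3, b1, b2⟩
  have c64 : r' ∈ S → p' ∈ S → AllIn S p q r p' q' r' := fun m1 m2 => by
    obtain ⟨b1, b2, b3, b4, b5, b6⟩ := kpq F2 hS g5 g3 g1 g2 m1 m2
    exact ⟨b5, b6, b4, b2, b3, b1⟩
  have c14 : p ∈ S → p' ∈ S → AllIn S p q r p' q' r' := fun m1 m2 =>
    kpp h hS g2 g3 g4 g5 g6 m1 m2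
  have c25 : q ∈ S → q' ∈ S → AllIn S p q r p' q' r' := fun m1 m2 => by
    obtain ⟨b1, b2, b3, b4, b5, b6⟩ := kpp R1 hS g3 g1 g5 g6 g4 m1 m2
    exact ⟨b3, b1, b2, b6, b4, b5⟩
  have c36 : r ∈ S → r' ∈ S → AllIn S p q r p' q' r' := fun m1 m2 => by
    obtain ⟨b1, b2, b3, b4, b5, b6⟩ := kpp R2 hS g1 g2 g6 g4 g5 m1 m2
    exact ⟨b2, b3, b1, b5, b6, b4⟩
  have c15 : p ∈ S → q' ∈ S → AllIn S p q r p' q' r' := fun m1 m2 =>
    kpq' h hS g2 g3 g4 g5 g6 m1 m2
  have c26 : q ∈ S → r' ∈ S → AllIn S p q r p' q' r' := fun m1 m2 => by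
    obtain ⟨b1, b2, b3, b4, b5, b6⟩ := kpq' R1 hS g3 g1 g5 g6 g4 m1 m2
    exact ⟨b3, b1, b2, b6, b4, b5⟩
  have c34 : r ∈ S → p' ∈ S → AllIn S p q r p' q' r' := fun m1 m2 => by
    obtain ⟨b1, b2, b3, b4, b5, b6⟩ := kpq' R2 hS g1 g2 g6 g4 g5 m1 m2
    exact ⟨b2, b3, b1, b5, b6, b4⟩
  have c42 : p' ∈ S → q ∈ S → AllIn S p q r p' q' r' := fun m1 m2 => by
    obtain ⟨b1, b2, b3, b4, b5, b6⟩ := kpq' F0 hS g5 g6 g1 g2 g3 m1 m2
    exact ⟨b4, b5, b6, b1, b2, b3⟩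
  have c53 : q' ∈ S → r ∈ S → AllIn S p q r p' q' r' := fun m1 m2 => by
    obtain ⟨b1, b2, b3, b4, b5, b6⟩ := kpq' F1 hS g6 g4 g2 g3 g1 m1 m2
    exact ⟨b6, b4, b5, b3, b1, b2⟩
  have c61 : r' ∈ S → p ∈ S → AllIn S p q r p' q' r' := fun m1 m2 => by
    obtain ⟨b1, b2, b3, b4, b5, b6⟩ := kpq' F2 hS g4 g5 g3 g1 g2 m1 m2
    exact ⟨b5, b6, b4, b2, b3, b1⟩
  have hu' := hS.1 hu
  have hv' := hS.1 hv
  simp only [mem_insert, mem_singleton] at hu' hv'
  have hh : AllIn S p q r p' q' r' := by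
    rcases hu' with e1 | e1 | e1 | e1 | e1 | e1 <;>
      rcases hv' with e2 | e2 | e2 | e2 | e2 | e2 <;>
      rw [e1] at hu <;> rw [e2] at hv <;> first
      | exact absurd (e1.trans e2.symm) huv
      | exact c12 hu hv
      | exact c12 hv hu
      | exact c23 hu hv
      | exact c23 hv hu
      | exact c31 hu hv
      | exact c31 hv hu
      | exact c45 hu hv
      | exact c45 hv hu
      | exact c56 hu hv
      | exact c56 hv hu
      | exact c64 hu hv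
      | exact c64 hv hu
      | exact c14 hu hv
      | exact c14 hv hu
      | exact c25 hu hv
      | exact c25 hv hu
      | exact c36 hu hv
      | exact c36 hv hu
      | exact c15 hu hv
      | exact c15 hv hu
      | exact c26 hu hv
      | exact c26 hv hu
      | exact c34 hu hv
      | exact c34 hv hu
      | exact c42 hu hv
      | exact c42 hv hu
      | exact c53 hu hv
      | exact c53 hv hu
      | exact c61 hu hv
      | exact c61 hv hu
  obtain ⟨b1, b2, b3, b4, b5, b6⟩ := hh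
  apply Finset.Subset.antisymm hS.1
  intro x hx
  simp only [mem_insert, mem_singleton] at hx
  rcases hx with rfl | rfl | rfl | rfl | rfl | rfl <;> assumption

theorem Prism_nsplit [DecidableEq V] {G : SimpleGraph V} {p q r p' q' r' : V} (h : Prism G p q r p' q' r') :
    ¬ Split G {p, q, r, p', q', r'} := by
  rintro ⟨N, hN, hst, hcl⟩
  obtain ⟨pq, qr, pr, pq', qr', pr', pp, qq, rr, n1, n2, n3, n4, n5, n6⟩ := h
  -- of each triangle at least two vertices are outside `N`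
  have t1 : ¬ (p ∈ N ∧ q ∈ N) := fun h => hst p h.1 q h.2 pq
  have t2 : ¬ (q ∈ N ∧ r ∈ N) := fun h => hst q h.1 r h.2 qr
  have t3 : ¬ (p ∈ N ∧ r ∈ N) := fun h => hst p h.1 r h.2 pr
  have t4 : ¬ (p' ∈ N ∧ q' ∈ N) := fun h => hst p' h.1 q' h.2 pq'
  have t5 : ¬ (q' ∈ N ∧ r' ∈ N) := fun h => hst q' h.1 r' h.2 qr'
  have t6 : ¬ (p' ∈ N ∧ r' ∈ N) := fun h => hst p' h.1 r' h.2 pr'
  have m1 : p ≠ q' := by rintro rfl; exact n6 pr.symm
  have m2 : p ≠ r' := by rintro rfl; exact n4 pq.symm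
  have m3 : q ≠ p' := by rintro rfl; exact n5 qr.symm
  have m4 : q ≠ r' := by rintro rfl; exact n2 pq
  have m5 : r ≠ p' := by rintro rfl; exact n3 qr
  have m6 : r ≠ q' := by rintro rfl; exact n1 pr
  have l1 : ¬ (p ∉ N ∧ q' ∉ N) := fun h => n1 (hcl p (by simp) q' (by simp) h.1 h.2 m1)
  have l2 : ¬ (p ∉ N ∧ r' ∉ N) := fun h => n2 (hcl p (by simp) r' (by simp) h.1 h.2 m2)
  have l3 : ¬ (q ∉ N ∧ p' ∉ N) := fun h => n3 (hcl q (by simp) p' (by simp) h.1 h.2 m3)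
  have l4 : ¬ (q ∉ N ∧ r' ∉ N) := fun h => n4 (hcl q (by simp) r' (by simp) h.1 h.2 m4)
  have l5 : ¬ (r ∉ N ∧ p' ∉ N) := fun h => n5 (hcl r (by simp) p' (by simp) h.1 h.2 m5)
  have l6 : ¬ (r ∉ N ∧ q' ∉ N) := fun h => n6 (hcl r (by simp) q' (by simp) h.1 h.2 m6)
  clear hst hcl
  by_cases a1 : p ∈ N
  · have a2 : q ∉ N := fun h => t1 ⟨a1, h⟩
    have a4 : p' ∈ N := by
      by_contra h; exact l3 ⟨a2, h⟩
    have a5 : r' ∈ N := by
      by_contra h; exact l4 ⟨a2, h⟩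
    exact t6 ⟨a4, a5⟩
  · have a4 : q' ∈ N := by
      by_contra h; exact l1 ⟨a1, h⟩
    have a5 : r' ∈ N := by
      by_contra h; exact l2 ⟨a1, h⟩
    exact t5 ⟨a4, a5⟩

theorem Prism_card [DecidableEq V] {G : SimpleGraph V} {p q r p' q' r' : V} (h : Prism G p q r p' q' r') :
    ({p, q, r, p', q', r'} : Finset V).card = 6 := by
  obtain ⟨pq, qr, pr, pq', qr', pr', pp, qq, rr, n1, n2, n3, n4, n5, n6⟩ := h
  have m1 : p ≠ q' := by rintro rfl; exact n6 pr.symm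
  have m2 : p ≠ r' := by rintro rfl; exact n4 pq.symm
  have m3 : q ≠ p' := by rintro rfl; exact n5 qr.symm
  have m4 : q ≠ r' := by rintro rfl; exact n2 pq
  have m5 : r ≠ p' := by rintro rfl; exact n3 qr
  have m6 : r ≠ q' := by rintro rfl; exact n1 pr
  have e1 := pq.ne
  have e2 := qr.ne
  have e3 := pr.ne
  have e4 := pq'.ne
  have e5 := qr'.ne
  have e6 := pr'.ne
  have e7 := pp.ne
  have e8 := qq.ne
  have e9 := rr.ne
  rw [Finset.card_insert_of_notMem, Finset.card_insert_of_notMem, Finset.card_insert_of_notMem,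
    Finset.card_insert_of_notMem, Finset.card_insert_of_notMem, Finset.card_singleton]
  · simpa using e5
  · simp [e4, e6]
  · simp [m5, m6, e9]
  · simp [e2, m3, e8, m4]
  · simp [e1, e3, e7, m1, m2]

end Pool.Agent.H85.BP
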