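import Pool.Agent.H85.BP.CA
import Pool.Agent.H85.BP.PrF

/-!
# BP PRc: no prism has an anticentre (core form)
-/

set_option autoImplicit false

namespace Pool.Agent.H85.BP

open Finset

variable {V : Type*}

/-- the case `x ~ p` -/
private theorem pr_bull {G : SimpleGraph V} (hb : BF G) {p q r p' q' r' x : V}
    (h : Prism G p q r p' q' r') (hxp : G.Adj x p) (hxq : ¬ G.Adj x q) (hxr : ¬ G.Adj x r)
    (hqr : ¬ (G.Adj x q' ∧ G.Adj x r')) : False := by
  obtain ⟨pq, qr, pr, pq', qr', pr', pp, qq, rr, n1, n2, n3, n4, n5, n6⟩ := h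
  by_cases h1 : G.Adj x q'
  · have h2 : ¬ G.Adj x r' := fun h => hqr ⟨h1, h⟩
    exact h2 (hb p r q x r' pr qr.symm pq hxp hxr hxq rr.symm (fun e => n2 e.symm)
      (fun e => n4 e.symm))
  · exact h1 (hb p q r x q' pq qr pr hxp hxq hxr qq.symm (fun e => n1 e.symm)
      (fun e => n6 e.symm))

private theorem pr_bull' {G : SimpleGraph V} (hb : BF G) {p q r p' q' r' x : V}
    (h : Prism G p q r p' q' r') {D : Finset V}
    (hst : ∀ u ∈ D, ∀ v ∈ D, G.Adj x u → G.Adj x v → ¬ G.Adj u v) (mp : p ∈ D) (mq : q ∈ D)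
    (mr : r ∈ D) (mq' : q' ∈ D) (mr' : r' ∈ D) (hxp : G.Adj x p) : False := by
  refine pr_bull hb h hxp ?_ ?_ ?_
  · intro e
    exact hst p mp q mq hxp e h.1
  · intro e
    exact hst p mp r mr hxp e h.2.2.1
  · rintro ⟨e1, e2⟩
    exact hst q' mq' r' mr' e1 e2 h.2.2.2.2.1

theorem pr_core [Fintype V] {G : SimpleGraph V} (hb : BF G) (hp : Pri G univ)
    {p q r p' q' r' a : V} (h : Prism G p q r p' q' r')
    (ap : ¬ G.Adj a p) (aq : ¬ G.Adj a q) (ar : ¬ G.Adj a r) (ap' : ¬ G.Adj a p')
    (aq' : ¬ G.Adj a q') (ar' : ¬ G.Adj a r') : False := by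
  classical
  have hpD := Prism_pri h
  have hsD := Prism_nsplit h
  have hcD := Prism_card h
  obtain ⟨D, hD⟩ : ∃ D : Finset V, D = {p, q, r, p', q', r'} := ⟨_, rfl⟩
  rw [← hD] at hpD hsD hcD
  have memD : ∀ x, x ∈ D ↔ (x = p ∨ x = q ∨ x = r ∨ x = p' ∨ x = q' ∨ x = r') := by
    intro x
    rw [hD]
    simp only [mem_insert, mem_singleton]
  have haD : Anti G a D := by
    constructor
    · intro haD
      rw [memD] at haD
      rcases haD with rfl | rfl | rfl | rfl | rfl | rfl
      · exact aq h.1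
      · exact ar h.2.1
      · exact ap h.2.2.1.symm
      · exact aq' h.2.2.2.1
      · exact ar' h.2.2.2.2.1
      · exact ap' h.2.2.2.2.2.1.symm
    · intro x hx
      rw [memD] at hx
      rcases hx with rfl | rfl | rfl | rfl | rfl | rfl <;> assumption
  have hnc : ∀ z, ¬ Cmp G z D := fun z hz => ca hb hp hpD (by omega) hsD hz haD
  have hcard : 3 ≤ (univ : Finset V).card := by
    have := Finset.card_le_card (Finset.subset_univ D)
    omega
  have hconn := pri_conn hp hcard
  have hT := hconn (univ.filter fun x => Anti G x D) (Finset.filter_subset _ _)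
    ⟨a, Finset.mem_filter.2 ⟨mem_univ _, haD⟩⟩ (by
      intro t ht x _ hxT htx
      have ht' : Anti G t D := (Finset.mem_filter.1 ht).2
      have hx' : ¬ Anti G x D := fun h => hxT (Finset.mem_filter.2 ⟨mem_univ _, h⟩)
      have hxD : x ∉ D := fun h => ht'.2 x h htx
      rcases beta_stab hb hpD ht' htx.symm with h1 | h1
      · exact hnc x h1
      · have mp : p ∈ D := (memD p).2 (by simp)
        have mq : q ∈ D := (memD q).2 (by simp)
        have mr : r ∈ D := (memD r).2 (by simp)
        have mp' : p' ∈ D := (memD p').2 (by simp)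
        have mq' : q' ∈ D := (memD q').2 (by simp)
        have mr' : r' ∈ D := (memD r').2 (by simp)
        have hex : ∃ y ∈ D, G.Adj x y := by
          by_contra hcon
          push Not at hcon
          exact hx' ⟨hxD, hcon⟩
        obtain ⟨y, hy, hxy⟩ := hex
        rw [memD] at hy
        rcases hy with e | e | e | e | e | e <;> rw [e] at hxy
        · exact pr_bull' hb h h1 mp mq mr mq' mr' hxy
        · exact pr_bull' hb (Prism_rot h) h1 mq mr mp mr' mp' hxy
        · exact pr_bull' hb (Prism_rot (Prism_rot h)) h1 mr mp mq mp' mq' hxy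
        · exact pr_bull' hb (Prism_flip h) h1 mp' mq' mr' mq mr hxy
        · exact pr_bull' hb (Prism_rot (Prism_flip h)) h1 mq' mr' mp' mr mp hxy
        · exact pr_bull' hb (Prism_rot (Prism_rot (Prism_flip h))) h1 mr' mp' mq' mp mq hxy)
  have hpT : p ∈ univ.filter fun x => Anti G x D := by
    rw [hT]; exact mem_univ _
  exact (Finset.mem_filter.1 hpT).2.1 ((memD p).2 (by simp))

end Pool.Agent.H85.BP
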