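import Pool.Agent.H85.BP.Alp

/-!
# BP L0: closure lemma

Let `Z = {z : Cmp G z H}`, `A = {a : Anti G a H}`, `M` = the vertices outside `H` which have a neighbour and a non-neighbour in `H` (finite sets of `V`; `univ = H ∪ Z ∪ A ∪ M`).  Facts: `z ~ a → x ~ z ∨ x ~ a` (`e1`), `z ≁ a → x ≁ z ∨ x ≁ a` (`e2`), `h3`: `x ~ z ∨ x ≁ a` for `x ∈ M`.
CASE 1: every `x ∈ M` is complete to `Z`.  Let `L : ℕ → Finset V`, `L 0 = M`, `L (i+1)` = the vertices of `A` which are in none of `L 0, ..., L i` and have a neighbour in `L i`.  Claim: every vertex of every `L i` is adjacent to every `z ∈ Z`.  `i = 0`: hypothesis.  `i = 1`: `a ~ x ∈ M`, `x ~ z`, `x ~ a`, so `z ~ a` by `e2`.  `i + 2`: `a2 ∈ L (i+2)`, `a1 ∈ L (i+1)`, `a2 ~ a1`, `m ∈ L i`, `m ~ a1`; `a2 ≁ m` (otherwise `a2` would be in `L (i+1)`, `a2 ∈ A` and not in earlier levels); suppose `z ≁ a2`; there is `h ∈ H`, `h ≁ m` (`m ∈ M` or `m ∈ A`); `h ≁ a1`, `h ≁ a2`, `h ~ z`.  `BF` for the triangle `a1, z, m` with `d = a2` (adjacent to `a1` only) and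 `e = h` (adjacent to `z` only): `a2 ~ h`, no.
(Alternative without levels: let `B` be the set of all `a ∈ A` reachable from `M` by paths `m = b0, b1, ..., bk = a` with `bi ∈ A` for `i ≥ 1`; take a shortest path.  Or strong induction on the distance.  Or: least counterexample for the level.)
Let `W = H ∪ M ∪ ⋃ L i` (finite union up to `card V`, or: all vertices which lie in `H`, `M` or some `L i`).  A vertex outside `W` is in `Z` (complete to `W`) or in `A` and in no `L i` (anticomplete to `W`: to `H` and to every `L i`).  So `W` is a module of `univ` with at least 2 elements, so `W = univ`; but `z0 ∉ W` (`z0 ∈ Z`, `Z` is disjoint from `H`, `M`, `A`).  Contradiction.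
CASE 2: some `x0 ∈ M`, `z1 ∈ Z` with `x0 ≁ z1`.  By `h3` `x0` has no neighbour in `A`, by `e1` `z1` has no neighbour in `A`.  Every `x ∈ M` is anticomplete to `A`: if `x ~ a`, then `x ~ z1` (`h3`), and `e2` gives `z1 ~ a`, no.  Now dually: `L 0 = M`, `L (i+1)` = the vertices of `Z` in no earlier level which have a NON-neighbour (different from itself) in `L i`.  Claim: every vertex of every `L i` is anticomplete to `A`.  `i = 1`: `z ∈ Z`, `z ≁ x ∈ M`, `a ∈ A`; `z ~ a` would give `x ~ z ∨ x ~ a` (`e1`), no.  `i + 2`: `z2 ≁ z1' ∈ L (i+1)`, `z1' ≁ m ∈ L i`, `z2 ~ m` (otherwise `z2 ∈ L (i+1)`); `h ∈ H` with `h ~ m`; suppose `a ~ z2`; `BF` for the triangle `z2, h, m` with `d = a` (adjacent to `z2` only) and `e = z1'` (adjacent to `h` only: `z1' ≁ z2`, `z1' ≁ m`): `a ~ z1'`, but `z1'` is anticomplete to `A` (induction).  `W = H ∪ M ∪ ⋃ L i` is a module: vertices of `Z` outside `W` are complete to `W`, vertices of `A` anticomplete; `a0 ∉ W`.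
(Case 2 is case 1 for the complement graph; it may be shorter to prove case 1 as a lemma for every bull-free graph and to apply it to `Gᶜ`: `BF G → BF Gᶜ`, `Pri G univ → Pri Gᶜ univ`, centres and anticentres are exchanged.)
-/

set_option autoImplicit false

namespace Pool.Agent.H85.BP

open Finset

variable {V : Type*}

/-- cumulative layers -/
private def layer (G : SimpleGraph V) (H : Finset V) : ℕ → V → Prop
  | 0 => fun x => x ∉ H ∧ (∃ u ∈ H, G.Adj x u) ∧ (∃ u ∈ H, ¬ G.Adj x u)
  | n + 1 => fun a => layer G H n a ∨ (Anti G a H ∧ ∃ m, layer G H n m ∧ G.Adj a m)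

private theorem layer_sub {G : SimpleGraph V} {H : Finset V} {n : ℕ} {x : V} (hx : layer G H n x) :
    (x ∉ H ∧ (∃ u ∈ H, G.Adj x u) ∧ (∃ u ∈ H, ¬ G.Adj x u)) ∨ Anti G x H := by
  induction n with
  | zero => exact Or.inl hx
  | succ n ih =>
    rcases hx with hx | hx
    · exact ih hx
    · exact Or.inr hx.1

private theorem layer_complete {G : SimpleGraph V} (hb : BF G) {H : Finset V} (hc : CoConn G H)
    (hn : H.Nonempty)
    (hM : ∀ x z, x ∉ H → (∃ u ∈ H, G.Adj x u) → (∃ u ∈ H, ¬ G.Adj x u) → Cmp G z H → G.Adj x z)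
    {z : V} (hz : Cmp G z H) : ∀ n, ∀ x, layer G H n x → G.Adj x z := by
  intro n
  induction n using Nat.strong_induction_on with
  | _ n ih =>
    intro x hx
    cases n with
    | zero => exact hM x z hx.1 hx.2.1 hx.2.2 hz
    | succ n =>
      rcases hx with hx | ⟨hxa, m, hm, hxm⟩
      · exact ih n (Nat.lt_succ_self n) x hx
      · by_contra hcon
        have hmz := ih n (Nat.lt_succ_self n) m hm
        cases n with
        | zero =>
          rcases e2 hb hc hz hxa hm.2.1 hm.2.2 (fun h => hcon h.symm) with h | h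
          · exact h hmz
          · exact h hxm.symm
        | succ k =>
          by_cases hmk : layer G H k m
          · exact hcon (ih (k + 1) (Nat.lt_succ_self _) x (Or.inr ⟨hxa, m, hmk, hxm⟩))
          · rcases hm with hm | ⟨hma, l, hl, hml⟩
            · exact hmk hm
            · by_cases hxl : G.Adj x l
              · exact hcon (ih (k + 1) (Nat.lt_succ_self _) x (Or.inr ⟨hxa, l, hl, hxl⟩))
              · have hlz := ih k (by omega) l hl
                have hex : ∃ h ∈ H, ¬ G.Adj l h := by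
                  rcases layer_sub hl with h1 | h1
                  · exact h1.2.2
                  · obtain ⟨h, hh⟩ := hn
                    exact ⟨h, hh, h1.2 h hh⟩
                obtain ⟨h, hh, hlh⟩ := hex
                exact hxa.2 h hh (hb m z l x h hmz hlz.symm hml hxm hcon hxl (hz h hh).symm
                  (fun e => hma.2 h hh e.symm) (fun e => hlh e.symm))

private theorem closure_case [Fintype V] {G : SimpleGraph V} (hb : BF G) (hp : Pri G univ)
    {H : Finset V} (hc : CoConn G H) (h2 : 2 ≤ H.card)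
    (hM : ∀ x z, x ∉ H → (∃ u ∈ H, G.Adj x u) → (∃ u ∈ H, ¬ G.Adj x u) → Cmp G z H → G.Adj x z)
    {z : V} (hz : Cmp G z H) : False := by
  classical
  have hn : H.Nonempty := Finset.card_pos.1 (by omega)
  have hzH : z ∉ H := fun h => (hz z h).ne rfl
  let W : Finset V := univ.filter fun v => v ∈ H ∨ ∃ n, layer G H n v
  have hmem : ∀ v, v ∈ W ↔ (v ∈ H ∨ ∃ n, layer G H n v) := fun v => by
    simp [W]
  have hzW : z ∉ W := by
    rw [hmem]
    rintro (h | ⟨n, h⟩)
    · exact hzH h
    · rcases layer_sub h with h1 | h1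
      · obtain ⟨h, hh, hzh⟩ := h1.2.2
        exact hzh (hz h hh)
      · obtain ⟨h, hh⟩ := hn
        exact h1.2 h hh (hz h hh)
  have hW : W = univ := by
    apply hp W
    · refine ⟨Finset.subset_univ _, fun v _ hvW => ?_⟩
      rw [hmem] at hvW
      push Not at hvW
      obtain ⟨hvH, hvL⟩ := hvW
      by_cases hex : ∃ h ∈ H, G.Adj v h
      · have hvz : Cmp G v H := by
          intro h hh
          by_contra hcon
          exact hvL 0 ⟨hvH, hex, h, hh, hcon⟩
        left
        intro s hs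
        rw [hmem] at hs
        rcases hs with hs | ⟨n, hs⟩
        · exact hvz s hs
        · exact (layer_complete hb hc hn hM hvz n s hs).symm
      · push Not at hex
        have hva : Anti G v H := ⟨hvH, hex⟩
        right
        intro s hs hvs
        rw [hmem] at hs
        rcases hs with hs | ⟨n, hs⟩
        · exact hex s hs hvs
        · exact hvL (n + 1) (Or.inr ⟨hva, s, hs, hvs⟩)
    · refine h2.trans (Finset.card_le_card fun x hx => ?_)
      rw [hmem]
      exact Or.inl hx
  rw [hW] at hzW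
  exact hzW (mem_univ z)

private theorem cadj {G : SimpleGraph V} {a b : V} (h : a ≠ b) : Gᶜ.Adj a b ↔ ¬ G.Adj a b := by
  simp [SimpleGraph.compl_adj, h]

theorem BF_compl {G : SimpleGraph V} (hG : BF G) : BF Gᶜ := by
  intro x y t u v hxy hyt hxt hux huy hut hvy hvx hvt
  have nux : u ≠ x := hux.ne
  have nvy : v ≠ y := hvy.ne
  have nuy : u ≠ y := by
    rintro rfl; exact hut hyt
  have nut : u ≠ t := by
    rintro rfl; exact huy hyt.symm
  have nvx : v ≠ x := by
    rintro rfl; exact hvt hxt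
  have nvt : v ≠ t := by
    rintro rfl; exact hvx hxt.symm
  have nuv : u ≠ v := by
    rintro rfl; exact hvx hux
  by_contra hcon
  rw [cadj nuv] at hcon
  push Not at hcon
  have e1 : G.Adj u y := by
    by_contra h; exact huy ((cadj nuy).2 h)
  have e2 : G.Adj u t := by
    by_contra h; exact hut ((cadj nut).2 h)
  have e3 : G.Adj v x := by
    by_contra h; exact hvx ((cadj nvx).2 h)
  have e4 : G.Adj v t := by
    by_contra h; exact hvt ((cadj nvt).2 h)
  have f1 : ¬ G.Adj x y := (cadj hxy.ne).1 hxy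
  have f2 : ¬ G.Adj x t := (cadj hxt.ne).1 hxt
  have f3 : ¬ G.Adj y t := (cadj hyt.ne).1 hyt
  have f4 : ¬ G.Adj u x := (cadj nux).1 hux
  have f5 : ¬ G.Adj v y := (cadj nvy).1 hvy
  have := hG u v t y x hcon e4 e2 e1.symm (fun h => f5 h.symm) f3 e3.symm
    (fun h => f4 h.symm) f2
  exact f1 this.symm

theorem Pri_compl {G : SimpleGraph V} {S : Finset V} (h : Pri G S) : Pri Gᶜ S := by
  intro H hH h2
  refine h H ⟨hH.1, fun v hv hvH => ?_⟩ h2
  rcases hH.2 v hv hvH with h1 | h1
  · right
    intro s hs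
    exact (cadj (h1 s hs).ne).1 (h1 s hs)
  · left
    intro s hs
    by_contra h3
    exact h1 s hs ((cadj (fun e : v = s => hvH (by rw [e]; exact hs))).2 h3)

theorem closure_lemma [Fintype V] {G : SimpleGraph V} (hb : BF G) (hp : Pri G univ) {H : Finset V} (hc : Conn G H)
    (hcc : CoConn G H) (h2 : 2 ≤ H.card) {z0 a0 : V} (hz0 : Cmp G z0 H) (ha0 : Anti G a0 H)
    (h3 : ∀ x, (∃ u ∈ H, G.Adj x u) → (∃ u ∈ H, ¬ G.Adj x u) → x ∉ H → ∀ z, Cmp G z H → ∀ a, Anti G a H →
      G.Adj x z ∨ ¬ G.Adj x a) : False := by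
  classical
  by_cases hM : ∀ x z, x ∉ H → (∃ u ∈ H, G.Adj x u) → (∃ u ∈ H, ¬ G.Adj x u) → Cmp G z H →
      G.Adj x z
  · exact closure_case hb hp hcc h2 hM hz0
  · push Not at hM
    obtain ⟨x0, z1, hx0, hx1, hx2, hz1, hxz⟩ := hM
    have hxa : ∀ a, Anti G a H → ¬ G.Adj x0 a := fun a ha =>
      (h3 x0 hx1 hx2 hx0 z1 hz1 a ha).resolve_left hxz
    have hza : ∀ a, Anti G a H → ¬ G.Adj z1 a := by
      intro a ha h
      rcases e1 hb hc hz1 ha hx1 hx2 h with h1 | h1
      · exact hxz h1
      · exact hxa a ha h1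
    have hMA : ∀ x a, x ∉ H → (∃ u ∈ H, G.Adj x u) → (∃ u ∈ H, ¬ G.Adj x u) → Anti G a H →
        ¬ G.Adj x a := by
      intro x a hx h1 h2' ha h
      have h4 : G.Adj x z1 := by
        by_contra h5
        rcases h3 x h1 h2' hx z1 hz1 a ha with h6 | h6
        · exact h5 h6
        · exact h6 h
      rcases e2 hb hcc hz1 ha h1 h2' (hza a ha) with h5 | h5
      · exact h5 h4
      · exact h5 h
    have hcc' : CoConn Gᶜ H := by
      intro T hT hTn hcl
      refine hc T hT hTn fun u hu v hv hvT => ?_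
      exact (cadj (fun e : u = v => hvT (by rw [← e]; exact hu))).1 (hcl u hu v hv hvT)
    refine closure_case (G := Gᶜ) (BF_compl hb) (Pri_compl hp) (H := H) hcc' h2 ?_ (z := a0) ?_
    · intro x b hx h1 h2' hb'
      obtain ⟨p, hp1, hp2⟩ := h1
      obtain ⟨q, hq1, hq2⟩ := h2'
      have hbH : b ∉ H := fun h => (hb' b h).ne rfl
      have hbA : Anti G b H := ⟨hbH, fun y hy => (cadj (hb' y hy).ne).1 (hb' y hy)⟩
      have hxq : G.Adj x q := by
        by_contra h
        exact hq2 ((cadj (fun e : x = q => hx (by rw [e]; exact hq1))).2 h)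
      have hxp : ¬ G.Adj x p := (cadj hp2.ne).1 hp2
      have hne : x ≠ b := by
        rintro rfl
        exact hbA.2 q hq1 hxq
      exact (cadj hne).2 (hMA x b hx ⟨q, hq1, hxq⟩ ⟨p, hp1, hxp⟩ hbA)
    · intro y hy
      exact (cadj (fun e : a0 = y => ha0.1 (by rw [e]; exact hy))).2 (ha0.2 y hy)

end Pool.Agent.H85.BP
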