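import Pool.Agent.H85.BP.PriU
import Pool.Agent.H85.BP.L0

/-!
# BP CA: no prime non-split set has both a centre and an anticentre

Apply `closure_lemma` with `H = I` (`pri_conn`, `pri_coconn`).  It remains: `x` mixed on `I`, `x ∉ I`, `z` centre, `a` anticentre, then `x ~ z ∨ x ≁ a`.  Suppose `x ≁ z` and `x ~ a`.  `beta_stab`: `N = {u ∈ I : x ~ u}` is stable (`Cmp G x I` is excluded because `x` is mixed).  `alpha_clq`: two different non-neighbours of `x` in `I` are adjacent.  So `I` is split (`N`), contradiction.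
-/

set_option autoImplicit false

namespace Pool.Agent.H85.BP

open Finset

variable {V : Type*}

theorem ca [Fintype V] {G : SimpleGraph V} (hb : BF G) (hp : Pri G univ) {I : Finset V} (hI : Pri G I) (h3 : 3 ≤ I.card)
    (hs : ¬ Split G I) {z a : V} (hz : Cmp G z I) (ha : Anti G a I) : False := by
  classical
  refine closure_lemma hb hp (pri_conn hI h3) (pri_coconn hI h3) (by omega) hz ha ?_
  intro x hx1 hx2 hxI z hz a ha
  by_contra hcon
  push Not at hcon
  obtain ⟨hxz, hxa⟩ := hcon
  rcases alpha_clq hb hI hz hxz hxI with h1 | h1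
  · obtain ⟨h, hh, h2⟩ := hx1
    exact h1 h hh h2
  · rcases beta_stab hb hI ha hxa with h2 | h2
    · obtain ⟨h, hh, h3⟩ := hx2
      exact h3 (h2 h hh)
    · refine hs ⟨I.filter fun u => G.Adj x u, Finset.filter_subset _ _, ?_, ?_⟩
      · intro u hu v hv
        rw [Finset.mem_filter] at hu hv
        exact h2 u hu.1 v hv.1 hu.2 hv.2
      · intro u hu v hv huN hvN huv
        exact h1 u hu v hv (fun h => huN (Finset.mem_filter.2 ⟨hu, h⟩))
          (fun h => hvN (Finset.mem_filter.2 ⟨hv, h⟩)) huv

end Pool.Agent.H85.BP
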