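import Pool.Agent.H85.BP.Bas

/-!
# BP Alp: the four local facts (alpha), (beta), (i), (ii)

`al`: by contradiction, `BF` for the triangle `h1, z, h2` with `d = x` (adjacent to `h1` only) and `e = h3` (adjacent to `z` only): `x ~ h3`, no.
`be`: by contradiction, triangle `x, h1, h2` with `d = a` (adjacent to `x` only), `e = h3` (adjacent to `h1` only): `a ~ h3`, no.
`e1`: suppose `x ≁ z`, `x ≁ a`.  `conn_mixed`: `u ~ v` in `H`, `x ~ u`, `x ≁ v`.  Triangle `u, z, v`, `d = x` (adjacent to `u` only), `e = a` (adjacent to `z` only): `x ~ a`, no.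
`e2`: suppose `x ~ z`, `x ~ a`.  `coconn_mixed`: `u ≁ v`, `x ~ u`, `x ≁ v`.  Triangle `x, z, u`, `d = a` (adjacent to `x` only: `a ≁ z` by hypothesis, `a ≁ u`), `e = v` (adjacent to `z` only: `v ≁ x`, `v ≁ u`): `a ~ v`, no.
-/

set_option autoImplicit false

namespace Pool.Agent.H85.BP

open Finset

variable {V : Type*}

theorem al {G : SimpleGraph V} (hb : BF G) {x z h1 h2 h3 : V} (z1 : G.Adj z h1) (z2 : G.Adj z h2) (z3 : G.Adj z h3)
    (h12 : G.Adj h1 h2) (x1 : G.Adj x h1) (x2 : ¬ G.Adj x h2) (xz : ¬ G.Adj x z) (x3 : ¬ G.Adj x h3)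
    (h23 : ¬ G.Adj h2 h3) : G.Adj h1 h3 := by
  by_contra h31
  exact x3 (hb h1 z h2 x h3 z1.symm z2 h12 x1 xz x2 z3.symm (fun e => h31 e.symm)
    (fun e => h23 e.symm))

theorem be {G : SimpleGraph V} (hb : BF G) {x a h1 h2 h3 : V} (a1 : ¬ G.Adj a h1) (a2 : ¬ G.Adj a h2) (a3 : ¬ G.Adj a h3)
    (xa : G.Adj x a) (h12 : G.Adj h1 h2) (x1 : G.Adj x h1) (x2 : G.Adj x h2) (x3 : ¬ G.Adj x h3)
    (h31 : G.Adj h3 h1) : G.Adj h3 h2 := by
  by_contra h32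
  exact a3 (hb x h1 h2 a h3 x1 h12 x2 xa.symm a1 a2 h31 (fun h => x3 h.symm) h32)

theorem e1 {G : SimpleGraph V} (hb : BF G) {H : Finset V} (hc : Conn G H) {x z a : V} (hz : Cmp G z H) (ha : Anti G a H)
    (h1 : ∃ u ∈ H, G.Adj x u) (h2 : ∃ u ∈ H, ¬ G.Adj x u) (hza : G.Adj z a) : G.Adj x z ∨ G.Adj x a := by
  by_contra hcon
  push Not at hcon
  obtain ⟨hxz, hxa⟩ := hcon
  obtain ⟨s, hs, t, ht, hst, hxs, hxt⟩ := conn_mixed hc h1 h2
  exact hxa (hb s z t x a (hz s hs).symm (hz t ht) hst hxs hxz hxt hza.symm (ha.2 s hs) (ha.2 t ht))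

theorem e2 {G : SimpleGraph V} (hb : BF G) {H : Finset V} (hc : CoConn G H) {x z a : V} (hz : Cmp G z H) (ha : Anti G a H)
    (h1 : ∃ u ∈ H, G.Adj x u) (h2 : ∃ u ∈ H, ¬ G.Adj x u) (hza : ¬ G.Adj z a) : ¬ G.Adj x z ∨ ¬ G.Adj x a := by
  by_contra hcon
  push Not at hcon
  obtain ⟨hxz, hxa⟩ := hcon
  obtain ⟨s, hs, t, ht, hst, hne, hxs, hxt⟩ := coconn_mixed hc h1 h2
  exact ha.2 t ht (hb x z s a t hxz (hz s hs) hxs hxa.symm (fun h => hza h.symm) (ha.2 s hs)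
    (hz t ht).symm (fun h => hxt h.symm) (fun h => hst h.symm))

end Pool.Agent.H85.BP
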