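import Pool.Agent.H85.BP.Defs

/-!
# BP Bas: connectivity of prime sets

`Conn` / `CoConn` are defined by closed subsets (no paths needed).
`pri_conn`: let `T ⊆ S` be non-empty without edges to `S - T`, suppose `T ≠ S`.  `T` is a module, so `#T ≤ 1` (else `T = S`), so `S - T` has at least 2 elements and is a module (all outside vertices are in `T`, anticomplete): `S - T = S`, contradiction with `T` non-empty.
`pri_coconn`: the same with `complete` instead of `anticomplete`.
`conn_mixed`: apply `Conn` to `T = {u ∈ H : x ~ u}`; `T ≠ H` because of `h2`; so some `u ∈ T`, `v ∈ H - T` are adjacent.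
`coconn_mixed`: the same (`u ≠ v` because `x ~ u`, `x ≁ v`).
`conn_edge`: `T = {u}`.
-/

set_option autoImplicit false

namespace Pool.Agent.H85.BP

open Finset

variable {V : Type*}

theorem pri_conn {G : SimpleGraph V} {S : Finset V} (h : Pri G S) (h3 : 3 ≤ S.card) : Conn G S := by
  classical
  intro T hT hTn hcl
  by_cases hT2 : 2 ≤ T.card
  · exact h T ⟨hT, fun v hv hvT => Or.inr fun x hx hvx => hcl x hx v hv hvT hvx.symm⟩ hT2
  · exfalso
    have hcard : (S \ T).card + T.card = S.card := by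
      rw [Finset.card_sdiff_add_card_eq_card hT]
    have h2 := h (S \ T) ⟨Finset.sdiff_subset, fun v hv hvT => Or.inr fun x hx hvx => by
      have hvT' : v ∈ T := by
        by_contra hcon; exact hvT (Finset.mem_sdiff.2 ⟨hv, hcon⟩)
      rw [Finset.mem_sdiff] at hx
      exact hcl v hvT' x hx.1 hx.2 hvx⟩ (by omega)
    obtain ⟨t, ht⟩ := hTn
    have : t ∈ S \ T := by
      rw [h2]; exact hT ht
    exact (Finset.mem_sdiff.1 this).2 ht

theorem pri_coconn {G : SimpleGraph V} {S : Finset V} (h : Pri G S) (h3 : 3 ≤ S.card) : CoConn G S := by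
  classical
  intro T hT hTn hcl
  by_cases hT2 : 2 ≤ T.card
  · exact h T ⟨hT, fun v hv hvT => Or.inl fun x hx => (hcl x hx v hv hvT).symm⟩ hT2
  · exfalso
    have hcard : (S \ T).card + T.card = S.card := by
      rw [Finset.card_sdiff_add_card_eq_card hT]
    have h2 := h (S \ T) ⟨Finset.sdiff_subset, fun v hv hvT => Or.inl fun x hx => by
      have hvT' : v ∈ T := by
        by_contra hcon; exact hvT (Finset.mem_sdiff.2 ⟨hv, hcon⟩)
      rw [Finset.mem_sdiff] at hx
      exact hcl v hvT' x hx.1 hx.2⟩ (by omega)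
    obtain ⟨t, ht⟩ := hTn
    have : t ∈ S \ T := by
      rw [h2]; exact hT ht
    exact (Finset.mem_sdiff.1 this).2 ht

theorem conn_mixed {G : SimpleGraph V} {H : Finset V} (h : Conn G H) {x : V} (h1 : ∃ u ∈ H, G.Adj x u)
    (h2 : ∃ u ∈ H, ¬ G.Adj x u) : ∃ u ∈ H, ∃ v ∈ H, G.Adj u v ∧ G.Adj x u ∧ ¬ G.Adj x v := by
  classical
  by_contra hcon
  push Not at hcon
  obtain ⟨p, hp, hxp⟩ := h1
  obtain ⟨q, hq, hxq⟩ := h2
  have h3 := h (H.filter fun u => G.Adj x u) (Finset.filter_subset _ _)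
    ⟨p, Finset.mem_filter.2 ⟨hp, hxp⟩⟩ (by
      intro u hu v hv hvT huv
      rw [Finset.mem_filter] at hu
      exact hvT (Finset.mem_filter.2 ⟨hv, hcon u hu.1 v hv huv hu.2⟩))
  have h4 : q ∈ H.filter fun u => G.Adj x u := by
    rw [h3]; exact hq
  exact hxq (Finset.mem_filter.1 h4).2

theorem coconn_mixed {G : SimpleGraph V} {H : Finset V} (h : CoConn G H) {x : V} (h1 : ∃ u ∈ H, G.Adj x u)
    (h2 : ∃ u ∈ H, ¬ G.Adj x u) : ∃ u ∈ H, ∃ v ∈ H, ¬ G.Adj u v ∧ u ≠ v ∧ G.Adj x u ∧ ¬ G.Adj x v := by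
  classical
  by_contra hcon
  push Not at hcon
  obtain ⟨p, hp, hxp⟩ := h1
  obtain ⟨q, hq, hxq⟩ := h2
  have h3 := h (H.filter fun u => G.Adj x u) (Finset.filter_subset _ _)
    ⟨p, Finset.mem_filter.2 ⟨hp, hxp⟩⟩ (by
      intro u hu v hv hvT
      by_contra huv
      have hne : u ≠ v := fun e => hvT (e ▸ hu)
      rw [Finset.mem_filter] at hu
      exact hvT (Finset.mem_filter.2 ⟨hv, hcon u hu.1 v hv huv hne hu.2⟩))
  have h4 : q ∈ H.filter fun u => G.Adj x u := by
    rw [h3]; exact hq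
  exact hxq (Finset.mem_filter.1 h4).2

theorem conn_edge {G : SimpleGraph V} {H : Finset V} (h : Conn G H) (hc : 2 ≤ H.card) {u : V} (hu : u ∈ H) :
    ∃ v ∈ H, G.Adj u v := by
  by_contra hcon
  push Not at hcon
  have h3 := h {u} (by simpa using hu) ⟨u, by simp⟩ (by
    intro a ha v hv _ hav
    rw [Finset.mem_singleton] at ha
    subst ha
    exact hcon v hv hav)
  rw [← h3] at hc
  simp at hc

end Pool.Agent.H85.BP
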