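import Mathlib

/-!
# BP Defs (project BP: MP_e9b9cb_co, bull-free graphs are perfect-Pollyanna)

All sets of vertices are `Finset`s of the ambient type `V`; graphs are `G : SimpleGraph V`.  The proof of the whole project is note 3269.
No decidability is needed in these definitions.
-/

set_option autoImplicit false

namespace Pool.Agent.H85.BP

open Finset

variable {V : Type*}

/-- `G` is bull-free, in the form of an implication: triangle `a b c`, `d` adjacent to `a` only, `e` adjacent to `b` only, then `d ~ e`.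
(The hypotheses imply that the five vertices are different.) -/
def BF (G : SimpleGraph V) : Prop :=
  ∀ a b c d e : V, G.Adj a b → G.Adj b c → G.Adj a c → G.Adj d a → ¬ G.Adj d b → ¬ G.Adj d c →
    G.Adj e b → ¬ G.Adj e a → ¬ G.Adj e c → G.Adj d e

/-- induced path with four vertices (the conditions imply that they are different) -/
def P4 (G : SimpleGraph V) (a b c d : V) : Prop :=
  G.Adj a b ∧ G.Adj b c ∧ G.Adj c d ∧ ¬ G.Adj a c ∧ ¬ G.Adj b d ∧ ¬ G.Adj a d

/-- `G` is gem-free: no induced `P4` has a centre -/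
def GF (G : SimpleGraph V) : Prop :=
  ∀ z a b c d : V, P4 G a b c d → G.Adj z a → G.Adj z b → G.Adj z c → G.Adj z d → False

/-- induced cycle with five vertices `a b c d e` -/
def C5 (G : SimpleGraph V) (a b c d e : V) : Prop :=
  G.Adj a b ∧ G.Adj b c ∧ G.Adj c d ∧ G.Adj d e ∧ G.Adj e a ∧
    ¬ G.Adj a c ∧ ¬ G.Adj a d ∧ ¬ G.Adj b d ∧ ¬ G.Adj b e ∧ ¬ G.Adj c e

/-- induced prism: triangles `p q r` and `p' q' r'`, matching `p p'`, `q q'`, `r r'` -/
def Prism (G : SimpleGraph V) (p q r p' q' r' : V) : Prop :=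
  G.Adj p q ∧ G.Adj q r ∧ G.Adj p r ∧ G.Adj p' q' ∧ G.Adj q' r' ∧ G.Adj p' r' ∧
    G.Adj p p' ∧ G.Adj q q' ∧ G.Adj r r' ∧
    ¬ G.Adj p q' ∧ ¬ G.Adj p r' ∧ ¬ G.Adj q p' ∧ ¬ G.Adj q r' ∧ ¬ G.Adj r p' ∧ ¬ G.Adj r q'

/-- stable set -/
def Stab (G : SimpleGraph V) (S : Finset V) : Prop := ∀ u ∈ S, ∀ v ∈ S, ¬ G.Adj u v

/-- clique -/
def Clq (G : SimpleGraph V) (K : Finset V) : Prop := ∀ u ∈ K, ∀ v ∈ K, u ≠ v → G.Adj u v

/-- the induced subgraph on `S` is triangle-free -/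
def TF (G : SimpleGraph V) (S : Finset V) : Prop :=
  ∀ a ∈ S, ∀ b ∈ S, ∀ c ∈ S, G.Adj a b → G.Adj b c → G.Adj a c → False

/-- the induced subgraph on `S` is `k`-colourable -/
def Col (G : SimpleGraph V) (S : Finset V) (k : ℕ) : Prop :=
  ∃ c : V → ℕ, (∀ v ∈ S, c v < k) ∧ ∀ u ∈ S, ∀ v ∈ S, G.Adj u v → c u ≠ c v

/-- all cliques in `S` have at most `k` vertices -/
def OmLe (G : SimpleGraph V) (S : Finset V) (k : ℕ) : Prop := ∀ K ⊆ S, Clq G K → K.card ≤ k

/-- the induced subgraph on `S` is perfect -/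
def Perf (G : SimpleGraph V) (S : Finset V) : Prop := ∀ T ⊆ S, ∀ k, OmLe G T k → Col G T k

/-- all cliques in `S` have weight at most `k` -/
def WLe (G : SimpleGraph V) (w : V → ℕ) (S : Finset V) (k : ℕ) : Prop :=
  ∀ K ⊆ S, Clq G K → ∑ v ∈ K, w v ≤ k

/-- `(S, w)` has a division: `A ⊆ S` perfect, and all cliques of `S - A` are lighter than some clique `K0` of `S` -/
def WDiv (G : SimpleGraph V) (w : V → ℕ) (S : Finset V) : Prop :=
  ∃ A ⊆ S, Perf G A ∧ ∃ K0 ⊆ S, Clq G K0 ∧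
    ∀ K ⊆ S, (∀ v ∈ K, v ∉ A) → Clq G K → ∑ v ∈ K, w v < ∑ v ∈ K0, w v

/-- `H` is a module (homogeneous set, trivial ones included) of the induced subgraph on `S` -/
def IsMod (G : SimpleGraph V) (S H : Finset V) : Prop :=
  H ⊆ S ∧ ∀ v ∈ S, v ∉ H → (∀ x ∈ H, G.Adj v x) ∨ (∀ x ∈ H, ¬ G.Adj v x)

/-- the induced subgraph on `S` is prime -/
def Pri (G : SimpleGraph V) (S : Finset V) : Prop := ∀ H : Finset V, IsMod G S H → 2 ≤ H.card → H = S

/-- the induced subgraph on `I` is minimally imperfect -/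
def MI (G : SimpleGraph V) (I : Finset V) : Prop := ¬ Perf G I ∧ ∀ T : Finset V, T ⊂ I → Perf G T

/-- `z` is complete to `H` (a centre of `H`) -/
def Cmp (G : SimpleGraph V) (z : V) (H : Finset V) : Prop := ∀ x ∈ H, G.Adj z x

/-- `a` is an anticentre of `H`: outside `H` and without neighbour in `H` -/
def Anti (G : SimpleGraph V) (a : V) (H : Finset V) : Prop := a ∉ H ∧ ∀ x ∈ H, ¬ G.Adj a x

/-- the induced subgraph on `S` is connected (a non-empty subset without edges to the rest is everything) -/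
def Conn (G : SimpleGraph V) (S : Finset V) : Prop :=
  ∀ T ⊆ S, T.Nonempty → (∀ u ∈ T, ∀ v ∈ S, v ∉ T → ¬ G.Adj u v) → T = S

/-- the complement of the induced subgraph on `S` is connected -/
def CoConn (G : SimpleGraph V) (S : Finset V) : Prop :=
  ∀ T ⊆ S, T.Nonempty → (∀ u ∈ T, ∀ v ∈ S, v ∉ T → G.Adj u v) → T = S

/-- the induced subgraph on `I` is a split graph -/
def Split (G : SimpleGraph V) (I : Finset V) : Prop :=
  ∃ N ⊆ I, Stab G N ∧ ∀ u ∈ I, ∀ v ∈ I, u ∉ N → v ∉ N → u ≠ v → G.Adj u v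

/-- context of the structural part: a prime bull-free graph in which every vertex is an anticentre of a minimally imperfect set -/
structure Ctx [Fintype V] (G : SimpleGraph V) : Prop where
  bf : BF G
  pri : Pri G univ
  imp : ∀ v : V, ∃ I : Finset V, MI G I ∧ Anti G v I

/-- minimal counterexample -/
structure CE [Fintype V] (G : SimpleGraph V) (w : V → ℕ) : Prop where
  bf : BF G
  col : ∀ T : Finset V, TF G T → Col G T 3
  pos : ∀ v, 0 < w v
  ind : ∀ T : Finset V, T ≠ univ → T.Nonempty → ∀ w' : V → ℕ, (∀ v, 0 < w' v) → WDiv G w' T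
  bad : ¬ WDiv G w univ
  ne : Nonempty V

/-! ### the vertices of an induced `P4` and the patterns on it -/

/-- `x` is adjacent to the four vertices -/
def Z4 (G : SimpleGraph V) (p1 p2 p3 p4 x : V) : Prop := G.Adj x p1 ∧ G.Adj x p2 ∧ G.Adj x p3 ∧ G.Adj x p4

/-- `x` is adjacent to none of the four vertices -/
def A4 (G : SimpleGraph V) (p1 p2 p3 p4 x : V) : Prop := ¬ G.Adj x p1 ∧ ¬ G.Adj x p2 ∧ ¬ G.Adj x p3 ∧ ¬ G.Adj x p4

/-- `x` is adjacent to the two ends only (class `M3` of the proof) -/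
def E4 (G : SimpleGraph V) (p1 p2 p3 p4 x : V) : Prop := G.Adj x p1 ∧ ¬ G.Adj x p2 ∧ ¬ G.Adj x p3 ∧ G.Adj x p4

/-- class `M2` of the proof: patterns 0011, 0111, 1011, 1100, 1101, 1110 -/
def B4 (G : SimpleGraph V) (p1 p2 p3 p4 x : V) : Prop :=
  ((G.Adj x p1 ∧ G.Adj x p2) ∨ (G.Adj x p3 ∧ G.Adj x p4)) ∧ ¬ (G.Adj x p1 ∧ G.Adj x p2 ∧ G.Adj x p3 ∧ G.Adj x p4)

/-! ### the maximal triangle-free set -/

open Classical in
/-- twice the number of edges of the induced subgraph on `X` -/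
noncomputable def ed (G : SimpleGraph V) (X : Finset V) : ℕ := ((X ×ˢ X).filter (fun p => G.Adj p.1 p.2)).card

/-- connected, triangle-free, not bipartite -/
def XOk (G : SimpleGraph V) (X : Finset V) : Prop := Conn G X ∧ TF G X ∧ ¬ Col G X 2

/-- the same with the maximal number of edges -/
def XMax (G : SimpleGraph V) (X : Finset V) : Prop := XOk G X ∧ ∀ X' : Finset V, XOk G X' → ed G X' ≤ ed G X

/-- structure of the neighbourhood in `X` of a vertex `v` outside `X` -/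
structure YS (G : SimpleGraph V) (X : Finset V) (v : V) (U1 U2 Y0 : Finset V) : Prop where
  s1 : U1 ⊆ X
  s2 : U2 ⊆ X
  s0 : Y0 ⊆ X
  cov : ∀ x ∈ X, G.Adj v x ↔ x ∈ U1 ∨ x ∈ U2 ∨ x ∈ Y0
  n1 : U1.Nonempty
  n2 : U2.Nonempty
  comp : ∀ u ∈ U1, ∀ u' ∈ U2, G.Adj u u'
  st1 : Stab G U1
  st2 : Stab G U2
  st0 : Stab G Y0
  iso : ∀ y ∈ Y0, ∀ u, u ∈ U1 ∨ u ∈ U2 → ¬ G.Adj y u
  star : ∀ x ∈ X, ¬ G.Adj v x → (∃ u, (u ∈ U1 ∨ u ∈ U2) ∧ G.Adj x u) → ∀ y ∈ Y0, G.Adj x y
  r12 : ∀ x ∈ X, ∀ x' ∈ X, ¬ G.Adj v x → ¬ G.Adj v x' → ∀ u ∈ U1, ∀ u' ∈ U2, G.Adj x u → G.Adj x' u' → G.Adj x x'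
  out : ∃ x ∈ X, ¬ G.Adj v x ∧ ∃ u, (u ∈ U1 ∨ u ∈ U2) ∧ G.Adj x u

/-- setting of the last part: bull-free, gem-free, prime, `X` extremal -/
structure LX [Fintype V] (G : SimpleGraph V) (X : Finset V) : Prop where
  bf : BF G
  gf : GF G
  pri : Pri G univ
  xm : XMax G X

/-! ### elementary facts -/

theorem clq_mono {G : SimpleGraph V} {K L : Finset V} (h : K ⊆ L) (hL : Clq G L) : Clq G K :=
  fun u hu v hv huv => hL u (h hu) v (h hv) huv

theorem stab_mono {G : SimpleGraph V} {K L : Finset V} (h : K ⊆ L) (hL : Stab G L) : Stab G K :=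
  fun u hu v hv => hL u (h hu) v (h hv)

theorem tf_mono {G : SimpleGraph V} {K L : Finset V} (h : K ⊆ L) (hL : TF G L) : TF G K :=
  fun a ha b hb c hc => hL a (h ha) b (h hb) c (h hc)

theorem col_mono {G : SimpleGraph V} {K L : Finset V} {k l : ℕ} (h : K ⊆ L) (hkl : k ≤ l) (hL : Col G L k) : Col G K l := by
  obtain ⟨c, h1, h2⟩ := hL
  exact ⟨c, fun v hv => lt_of_lt_of_le (h1 v (h hv)) hkl, fun u hu v hv => h2 u (h hu) v (h hv)⟩

theorem omLe_mono {G : SimpleGraph V} {K L : Finset V} {k l : ℕ} (h : K ⊆ L) (hkl : k ≤ l) (hL : OmLe G L k) : OmLe G K l :=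
  fun C hC hq => (hL C (hC.trans h) hq).trans hkl

theorem perf_mono {G : SimpleGraph V} {K L : Finset V} (h : K ⊆ L) (hL : Perf G L) : Perf G K :=
  fun T hT k hk => hL T (hT.trans h) k hk

theorem clq_empty {G : SimpleGraph V} : Clq G ∅ := fun u hu => absurd hu (by simp)

theorem clq_singleton {G : SimpleGraph V} (v : V) : Clq G {v} := by
  intro a ha b hb hab
  rw [mem_singleton] at ha hb
  exact absurd (ha.trans hb.symm) hab

/-- an imperfect set contains a minimally imperfect one -/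
theorem exists_MI {G : SimpleGraph V} {S : Finset V} (h : ¬ Perf G S) : ∃ I ⊆ S, MI G I := by
  induction S using Finset.strongInduction with
  | _ S ih =>
    by_cases hS : ∀ T : Finset V, T ⊂ S → Perf G T
    · exact ⟨S, Subset.refl _, h, hS⟩
    · push Not at hS
      obtain ⟨T, hT, hT'⟩ := hS
      obtain ⟨I, hI, hI'⟩ := ih T hT hT'
      exact ⟨I, hI.trans hT.1, hI'⟩

end Pool.Agent.H85.BP
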