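import Pool.Agent.H85.BP.Alp

/-!
# BP PriU: a vertex and a prime set with a centre or an anticentre

`beta_stab`: let `N = {u ∈ I : x ~ u}`, suppose `N ≠ I` (that is not `Cmp G x I`) and `u0 ~ v0` in `N`.  Let `D` = the set of the `d ∈ N` reachable from `u0` by edges inside `N` (`Relation.ReflTransGen` of `fun u v => u ∈ N ∧ v ∈ N ∧ G.Adj u v`, or the least closed set).  Every `h ∈ I - N` is complete or anticomplete to `D`: for an edge `d ~ d'` inside `N`, `h ~ d ↔ h ~ d'` by `be` (both directions; `a` is the anticentre); induction along `ReflTransGen`.  Every `h ∈ N - D` is anticomplete to `D` (closedness).  So `D` is a module of `I` with at least two elements (`u0, v0`), `D = I`, contradiction with `D ⊆ N ≠ I`.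
`alpha_clq`: the mirror image: suppose `x` has a neighbour in `I` and `u0 ≠ v0` are non-adjacent non-neighbours of `x` in `I`.  `N' = {u ∈ I : x ≁ u}`, `D` = the elements of `N'` reachable from `u0` by steps between distinct non-adjacent elements of `N'`.  Every `h ∈ I - N'` (so `x ~ h`) is complete or anticomplete to `D`: for `d, d' ∈ N'` distinct, non-adjacent, `h ~ d → h ~ d'` by `al` (`h1 = h, h2 = d, h3 = d'`); every `h ∈ N' - D` is complete to `D`.  `D` is a module with at least 2 elements, `D = I`, but `D ⊆ N' ≠ I`.  (`hxI` is only there for safety.)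
-/

set_option autoImplicit false

namespace Pool.Agent.H85.BP

open Finset

variable {V : Type*}

/-- every vertex of `I` outside `T ⊆ I` sees adjacent vertices of `T` in the same way: then `T` is
stable or `T = I` -/
private theorem stable_or_all {G : SimpleGraph V} {I T : Finset V} (hI : Pri G I) (hT : T ⊆ I)
    (h : ∀ v ∈ I, v ∉ T → ∀ c ∈ T, ∀ d ∈ T, G.Adj c d → G.Adj v c → G.Adj v d) :
    (∀ c ∈ T, ∀ d ∈ T, ¬ G.Adj c d) ∨ T = I := by
  classical
  by_contra hcon
  push Not at hcon
  obtain ⟨⟨c0, hc0, d0, hd0, hcd⟩, hne⟩ := hcon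
  let R : V → V → Prop := fun c d => c ∈ T ∧ d ∈ T ∧ G.Adj c d
  have hRT : ∀ d, Relation.ReflTransGen R c0 d → d ∈ T := by
    intro d hd
    induction hd with
    | refl => exact hc0
    | tail _ h2 _ => exact h2.2.1
  have hmod : IsMod G I (I.filter fun d => Relation.ReflTransGen R c0 d) := by
    refine ⟨Finset.filter_subset _ _, fun v hv hvC => ?_⟩
    have hvC' : ¬ Relation.ReflTransGen R c0 v := fun h => hvC (Finset.mem_filter.2 ⟨hv, h⟩)
    by_cases hvT : v ∈ T
    · right
      intro s hs hvs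
      exact hvC' (Relation.ReflTransGen.tail (Finset.mem_filter.1 hs).2
        ⟨hRT s (Finset.mem_filter.1 hs).2, hvT, hvs.symm⟩)
    · have key : ∀ s, Relation.ReflTransGen R c0 s → (G.Adj v c0 ↔ G.Adj v s) := by
        intro s hs
        induction hs with
        | refl => exact Iff.rfl
        | tail _ h2 ih =>
          rw [ih]
          exact ⟨h v hv hvT _ h2.1 _ h2.2.1 h2.2.2, h v hv hvT _ h2.2.1 _ h2.1 h2.2.2.symm⟩
      by_cases h0 : G.Adj v c0
      · left
        intro s hs
        exact (key s (Finset.mem_filter.1 hs).2).1 h0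
      · right
        intro s hs hs2
        exact h0 ((key s (Finset.mem_filter.1 hs).2).2 hs2)
  have hCI := hI _ hmod (by
    have hc : c0 ∈ I.filter fun d => Relation.ReflTransGen R c0 d :=
      Finset.mem_filter.2 ⟨hT hc0, Relation.ReflTransGen.refl⟩
    have hd : d0 ∈ I.filter fun d => Relation.ReflTransGen R c0 d :=
      Finset.mem_filter.2 ⟨hT hd0, Relation.ReflTransGen.single ⟨hc0, hd0, hcd⟩⟩
    exact Finset.one_lt_card.2 ⟨c0, hc, d0, hd, hcd.ne⟩)
  refine hne (Finset.Subset.antisymm hT fun x hx => ?_)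
  rw [← hCI] at hx
  exact hRT x (Finset.mem_filter.1 hx).2

private theorem clique_or_all {G : SimpleGraph V} {I T : Finset V} (hI : Pri G I) (hT : T ⊆ I)
    (h : ∀ v ∈ I, v ∉ T → ∀ c ∈ T, ∀ d ∈ T, c ≠ d → ¬ G.Adj c d → G.Adj v c → G.Adj v d) :
    (∀ c ∈ T, ∀ d ∈ T, c ≠ d → G.Adj c d) ∨ T = I := by
  classical
  by_contra hcon
  push Not at hcon
  obtain ⟨⟨c0, hc0, d0, hd0, hcdne, hcd⟩, hne⟩ := hcon
  let R : V → V → Prop := fun c d => c ∈ T ∧ d ∈ T ∧ c ≠ d ∧ ¬ G.Adj c d
  have hRT : ∀ d, Relation.ReflTransGen R c0 d → d ∈ T := by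
    intro d hd
    induction hd with
    | refl => exact hc0
    | tail _ h2 _ => exact h2.2.1
  have hmod : IsMod G I (I.filter fun d => Relation.ReflTransGen R c0 d) := by
    refine ⟨Finset.filter_subset _ _, fun v hv hvC => ?_⟩
    have hvC' : ¬ Relation.ReflTransGen R c0 v := fun h => hvC (Finset.mem_filter.2 ⟨hv, h⟩)
    by_cases hvT : v ∈ T
    · left
      intro s hs
      by_contra hvs
      refine hvC' (Relation.ReflTransGen.tail (Finset.mem_filter.1 hs).2
        ⟨hRT s (Finset.mem_filter.1 hs).2, hvT, ?_, fun e => hvs e.symm⟩)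
      rintro rfl
      exact hvC hs
    · have key : ∀ s, Relation.ReflTransGen R c0 s → (G.Adj v c0 ↔ G.Adj v s) := by
        intro s hs
        induction hs with
        | refl => exact Iff.rfl
        | tail _ h2 ih =>
          rw [ih]
          exact ⟨h v hv hvT _ h2.1 _ h2.2.1 h2.2.2.1 h2.2.2.2,
            h v hv hvT _ h2.2.1 _ h2.1 h2.2.2.1.symm (fun e => h2.2.2.2 e.symm)⟩
      by_cases h0 : G.Adj v c0
      · left
        intro s hs
        exact (key s (Finset.mem_filter.1 hs).2).1 h0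
      · right
        intro s hs hs2
        exact h0 ((key s (Finset.mem_filter.1 hs).2).2 hs2)
  have hCI := hI _ hmod (by
    have hc : c0 ∈ I.filter fun d => Relation.ReflTransGen R c0 d :=
      Finset.mem_filter.2 ⟨hT hc0, Relation.ReflTransGen.refl⟩
    have hd : d0 ∈ I.filter fun d => Relation.ReflTransGen R c0 d :=
      Finset.mem_filter.2 ⟨hT hd0, Relation.ReflTransGen.single ⟨hc0, hd0, hcdne, hcd⟩⟩
    exact Finset.one_lt_card.2 ⟨c0, hc, d0, hd, hcdne⟩)
  refine hne (Finset.Subset.antisymm hT fun x hx => ?_)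
  rw [← hCI] at hx
  exact hRT x (Finset.mem_filter.1 hx).2

theorem beta_stab {G : SimpleGraph V} (hb : BF G) {I : Finset V} (hI : Pri G I) {a x : V} (ha : Anti G a I)
    (hx : G.Adj x a) : Cmp G x I ∨ ∀ u ∈ I, ∀ v ∈ I, G.Adj x u → G.Adj x v → ¬ G.Adj u v := by
  classical
  rcases stable_or_all (T := I.filter fun u => G.Adj x u) hI (Finset.filter_subset _ _) (by
    intro v hv hvT c hc d hd hcd hvc
    rw [Finset.mem_filter] at hc hd
    have hxv : ¬ G.Adj x v := fun h => hvT (Finset.mem_filter.2 ⟨hv, h⟩)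
    exact be hb (ha.2 c hc.1) (ha.2 d hd.1) (ha.2 v hv) hx hcd hc.2 hd.2 hxv hvc) with h1 | h1
  · right
    intro c hc d hd h2 h3
    exact h1 c (Finset.mem_filter.2 ⟨hc, h2⟩) d (Finset.mem_filter.2 ⟨hd, h3⟩)
  · left
    intro h hh
    rw [← h1] at hh
    exact (Finset.mem_filter.1 hh).2

theorem alpha_clq {G : SimpleGraph V} (hb : BF G) {I : Finset V} (hI : Pri G I) {z x : V} (hz : Cmp G z I)
    (hx : ¬ G.Adj x z) (hxI : x ∉ I) :
    (∀ u ∈ I, ¬ G.Adj x u) ∨ ∀ u ∈ I, ∀ v ∈ I, ¬ G.Adj x u → ¬ G.Adj x v → u ≠ v → G.Adj u v := by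
  classical
  rcases clique_or_all (T := I.filter fun u => ¬ G.Adj x u) hI (Finset.filter_subset _ _) (by
    intro v hv hvT c hc d hd hne hcd hvc
    rw [Finset.mem_filter] at hc hd
    have hxv : G.Adj x v := by
      by_contra h; exact hvT (Finset.mem_filter.2 ⟨hv, h⟩)
    exact al hb (hz v hv) (hz c hc.1) (hz d hd.1) hvc hxv hc.2 hx hd.2 hcd) with h1 | h1
  · right
    intro c hc d hd h2 h3
    exact h1 c (Finset.mem_filter.2 ⟨hc, h2⟩) d (Finset.mem_filter.2 ⟨hd, h3⟩)
  · left
    intro h hh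
    rw [← h1] at hh
    exact (Finset.mem_filter.1 hh).2

end Pool.Agent.H85.BP
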